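import Pool.Agent.Lib_helper35.DC.Defs

/-! # Double coset growth: block FB -/

set_option autoImplicit false

open MeasureTheory Filter Topology

namespace Pool.Agent.DC

variable {G X M : Type} [Group G] [MetricSpace X] [MulAction G X] [MetricSpace M]
    [MeasurableSpace M] [BorelSpace M] [MulAction G M]

private theorem fb_mul (T : TD G X M) (a b : G) : T.len (a * b) ≤ T.len a + T.len b := by
  show dist T.o ((a * b) • T.o) ≤ dist T.o (a • T.o) + dist T.o (b • T.o)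
  rw [← T.isom a T.o (b • T.o), ← mul_smul]
  exact dist_triangle _ _ _

private theorem fb_inv (T : TD G X M) (g : G) : T.len g⁻¹ = T.len g := T.cnt.inv g

/-- BLOCK FB. The number of the elements of a double coset in a ball. -/
theorem FB_main (T : TD G X M) (H K : Subgroup G)
    (hZ : ∀ g : G, (∀ x : X, g • x = x) → g ∈ H ∧ g ∈ K) (t r : ℝ) (g : G)
    (h1 : ∀ a ∈ H, ∀ b ∈ K, T.len (a * g * b) ≤ r → T.len a ≤ t ∧ T.len b ≤ t)
    (h2 : ∀ a ∈ H, ∀ b ∈ K, T.len a ≤ 2 * t → T.len b ≤ 2 * t → a * g = g * b →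
      ∀ x : X, a • x = x) :
    Set.ncard {x | x ∈ DoubleCoset.doubleCoset g (H : Set G) (K : Set G) ∧ T.len x ≤ r} *
      Set.ncard {z : G | ∀ x : X, z • x = x} =
    Set.ncard {p : {p : G × G // p.1 ∈ H ∧ p.2 ∈ K ∧ T.len p.1 ≤ t ∧ T.len p.2 ≤ t} |
      T.len (p.1.1 * g * p.1.2) ≤ r} := by
  classical
  have hc : ∀ x : G, ∃ p : G × G, x ∈ DoubleCoset.doubleCoset g (H : Set G) (K : Set G) →
      p.1 ∈ H ∧ p.2 ∈ K ∧ x = p.1 * g * p.2 := by
    intro x
    by_cases hx : x ∈ DoubleCoset.doubleCoset g (H : Set G) (K : Set G)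
    · rw [DoubleCoset.mem_doubleCoset] at hx
      obtain ⟨a, ha, b, hb, hab⟩ := hx
      exact ⟨(a, b), fun _ => ⟨ha, hb, hab⟩⟩
    · exact ⟨(1, 1), fun h => absurd h hx⟩
  choose c hcx using hc
  -- conjugates of trivial elements are trivial
  have hinv : ∀ z : G, (∀ x : X, z • x = x) → ∀ x : X, z⁻¹ • x = x := by
    intro z hz x
    rw [inv_smul_eq_iff]
    exact (hz x).symm
  have hconj : ∀ z : G, (∀ x : X, z • x = x) → ∀ x : X, (g⁻¹ * z⁻¹ * g) • x = x := by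
    intro z hz x
    rw [mul_smul, mul_smul, hinv z hz, inv_smul_smul]
  have himg : (fun q : G × G => ((c q.1).1 * q.2, g⁻¹ * q.2⁻¹ * g * (c q.1).2)) ''
      ({x | x ∈ DoubleCoset.doubleCoset g (H : Set G) (K : Set G) ∧ T.len x ≤ r} ×ˢ
        {z : G | ∀ x : X, z • x = x}) =
      Subtype.val '' {p : {p : G × G // p.1 ∈ H ∧ p.2 ∈ K ∧ T.len p.1 ≤ t ∧ T.len p.2 ≤ t} |
        T.len (p.1.1 * g * p.1.2) ≤ r} := by
    ext p
    constructor
    · rintro ⟨⟨x, z⟩, ⟨⟨hx, hr⟩, hz⟩, rfl⟩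
      obtain ⟨ha, hb, hab⟩ := hcx x hx
      have hz' : ∀ y : X, z • y = y := hz
      have e1 : (c x).1 * z ∈ H := H.mul_mem ha (hZ z hz').1
      have e2 : g⁻¹ * z⁻¹ * g * (c x).2 ∈ K := K.mul_mem (hZ _ (hconj z hz')).2 hb
      have e3 : (c x).1 * z * g * (g⁻¹ * z⁻¹ * g * (c x).2) = x := by
        refine Eq.trans ?_ hab.symm
        group
      have e4 := h1 _ e1 _ e2 (by rw [e3]; exact hr)
      exact ⟨⟨_, e1, e2, e4.1, e4.2⟩, by
        show T.len ((c x).1 * z * g * (g⁻¹ * z⁻¹ * g * (c x).2)) ≤ r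
        rw [e3]
        exact hr, rfl⟩
    · rintro ⟨⟨⟨a, b⟩, ha, hb, la, lb⟩, hr, rfl⟩
      have hr' : T.len (a * g * b) ≤ r := hr
      have hx : a * g * b ∈ DoubleCoset.doubleCoset g (H : Set G) (K : Set G) :=
        DoubleCoset.mem_doubleCoset.2 ⟨a, ha, b, hb, rfl⟩
      obtain ⟨ha', hb', hab'⟩ := hcx _ hx
      obtain ⟨la', lb'⟩ := h1 _ ha' _ hb' (by rw [← hab']; exact hr')
      refine ⟨(a * g * b, (c (a * g * b)).1⁻¹ * a), ⟨⟨hx, hr'⟩, ?_⟩, ?_⟩
      · show ∀ x : X, ((c (a * g * b)).1⁻¹ * a) • x = x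
        refine h2 _ (H.mul_mem (H.inv_mem ha') ha) ((c (a * g * b)).2 * b⁻¹)
          (K.mul_mem hb' (K.inv_mem hb)) ?_ ?_ ?_
        · refine (fb_mul T _ _).trans ?_
          rw [fb_inv]
          have : T.len a ≤ t := la
          linarith
        · refine (fb_mul T _ _).trans ?_
          rw [fb_inv]
          have : T.len b ≤ t := lb
          linarith
        · rw [mul_assoc, inv_mul_eq_iff_eq_mul, ← mul_assoc, ← mul_assoc, eq_mul_inv_iff_mul_eq]
          exact hab'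
      · refine Prod.ext ?_ ?_
        · show (c (a * g * b)).1 * ((c (a * g * b)).1⁻¹ * a) = a
          rw [mul_inv_cancel_left]
        · show g⁻¹ * ((c (a * g * b)).1⁻¹ * a)⁻¹ * g * (c (a * g * b)).2 = b
          have e5 : (c (a * g * b)).1 * (g * (c (a * g * b)).2) = a * g * b := by
            rw [← mul_assoc]
            exact hab'.symm
          rw [mul_inv_rev, inv_inv, mul_assoc, mul_assoc, mul_assoc, e5]
          group
  rw [← Set.ncard_prod, ← Set.ncard_image_of_injective _ Subtype.val_injective, ← himg]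
  symm
  apply Set.InjOn.ncard_image
  rintro ⟨x, z⟩ ⟨⟨hx, -⟩, hz⟩ ⟨y, w⟩ ⟨⟨hy, -⟩, hw⟩ h
  obtain ⟨-, -, hab⟩ := hcx x hx
  obtain ⟨-, -, hab'⟩ := hcx y hy
  have e1 : (c x).1 * z = (c y).1 * w := congrArg Prod.fst h
  have e2 : g⁻¹ * z⁻¹ * g * (c x).2 = g⁻¹ * w⁻¹ * g * (c y).2 := congrArg Prod.snd h
  have e3 : x = y := by
    have f1 : (c x).1 * z * g * (g⁻¹ * z⁻¹ * g * (c x).2) = (c x).1 * g * (c x).2 := by group
    have f2 : (c y).1 * w * g * (g⁻¹ * w⁻¹ * g * (c y).2) = (c y).1 * g * (c y).2 := by group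
    rw [hab, hab', ← f1, ← f2, e1, e2]
  subst e3
  rw [mul_left_cancel e1]

end Pool.Agent.DC
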