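import Pool.Agent.Lib_helper35.DC.Defs

/-! # Double coset growth: block NS -/

set_option autoImplicit false

open MeasureTheory Filter Topology

namespace Pool.Agent.DC

variable {G X M : Type} [Group G] [MetricSpace X] [MulAction G X] [MetricSpace M]
    [MeasurableSpace M] [BorelSpace M] [MulAction G M]

/-- BLOCK NS. The number of the double cosets which meet a ball. -/
theorem NS_main (T : TD G X M) (H K : Subgroup G) (r : ℝ) :
    (Set.ncard {S : Set G | ∃ φ : G, S = DoubleCoset.doubleCoset φ (H : Set G) (K : Set G) ∧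
      ∃ g ∈ S, T.len g ≤ r} : ℝ) =
    ∑ g ∈ (T.fin r).toFinset, 1 / (Set.ncard {x | x ∈ DoubleCoset.doubleCoset g (H : Set G)
      (K : Set G) ∧ T.len x ≤ r} : ℝ) := by
  classical
  have hB : ∀ g, g ∈ (T.fin r).toFinset ↔ T.len g ≤ r := fun g => Set.Finite.mem_toFinset _
  have h1 : {S : Set G | ∃ φ : G, S = DoubleCoset.doubleCoset φ (H : Set G) (K : Set G) ∧
      ∃ g ∈ S, T.len g ≤ r} =
      (((T.fin r).toFinset.image fun g => DoubleCoset.doubleCoset g (H : Set G) (K : Set G) :
        Finset (Set G)) : Set (Set G)) := by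
    ext S
    rw [Finset.mem_coe, Finset.mem_image]
    constructor
    · rintro ⟨φ, rfl, g, hg, hr⟩
      exact ⟨g, (hB g).2 hr, DoubleCoset.doubleCoset_eq_of_mem hg⟩
    · rintro ⟨g, hg, rfl⟩
      exact ⟨g, rfl, g, DoubleCoset.mem_doubleCoset_self H K g, (hB g).1 hg⟩
  rw [h1, Set.ncard_coe_finset, Finset.card_eq_sum_ones, Nat.cast_sum]
  refine Finset.sum_image' (f := fun _ => ((1 : ℕ) : ℝ)) _ ?_
  intro i hi
  have h2 : ∀ j, DoubleCoset.doubleCoset j (H : Set G) (K : Set G) =
      DoubleCoset.doubleCoset i (H : Set G) (K : Set G) →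
      Set.ncard {x | x ∈ DoubleCoset.doubleCoset j (H : Set G) (K : Set G) ∧ T.len x ≤ r} =
      ((T.fin r).toFinset.filter fun j => DoubleCoset.doubleCoset j (H : Set G) (K : Set G) =
        DoubleCoset.doubleCoset i (H : Set G) (K : Set G)).card := by
    intro j hj
    rw [← Set.ncard_coe_finset]
    congr 1
    ext x
    rw [Finset.mem_coe, Finset.mem_filter, hB, hj]
    constructor
    · rintro ⟨hx, hr⟩
      exact ⟨hr, DoubleCoset.doubleCoset_eq_of_mem hx⟩
    · rintro ⟨hr, hx⟩
      refine ⟨?_, hr⟩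
      rw [← hx]
      exact DoubleCoset.mem_doubleCoset_self H K x
  have h3 : ∀ j ∈ (T.fin r).toFinset.filter fun j => DoubleCoset.doubleCoset j (H : Set G) (K : Set G) =
        DoubleCoset.doubleCoset i (H : Set G) (K : Set G),
      1 / (Set.ncard {x | x ∈ DoubleCoset.doubleCoset j (H : Set G) (K : Set G) ∧ T.len x ≤ r} : ℝ) =
      1 / (((T.fin r).toFinset.filter fun j => DoubleCoset.doubleCoset j (H : Set G) (K : Set G) =
        DoubleCoset.doubleCoset i (H : Set G) (K : Set G)).card : ℝ) := by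
    intro j hj
    rw [h2 j (Finset.mem_filter.1 hj).2]
  rw [Finset.sum_congr rfl h3, Finset.sum_const, nsmul_eq_mul, Nat.cast_one]
  have h4 : (((T.fin r).toFinset.filter fun j => DoubleCoset.doubleCoset j (H : Set G) (K : Set G) =
        DoubleCoset.doubleCoset i (H : Set G) (K : Set G)).card : ℝ) ≠ 0 := by
    rw [Nat.cast_ne_zero, Ne, Finset.card_eq_zero]
    intro h
    have : i ∈ (∅ : Finset G) := by
      rw [← h]
      exact Finset.mem_filter.2 ⟨hi, rfl⟩
    simp at this
  rw [mul_one_div, div_self h4]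

end Pool.Agent.DC
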