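import Pool.Agent.Lib_helper35.DC.Defs

/-! # Double coset growth: block SD -/

set_option autoImplicit false

open MeasureTheory Filter Topology

namespace Pool.Agent.DC

variable {G X M : Type} [Group G] [MetricSpace X] [MulAction G X] [MetricSpace M]
    [MeasurableSpace M] [BorelSpace M] [MulAction G M]

private theorem sd_set (T : TD G X M) (H K : Subgroup G) (φ : G) :
    {t | ∃ a ∈ {x : X | ∃ a ∈ H, x = a • T.o}, ∃ b ∈ {x : X | ∃ b ∈ K, x = (φ * b) • T.o}, t = dist a b} =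
      {t | ∃ g ∈ DoubleCoset.doubleCoset φ (H : Set G) (K : Set G), t = T.len g} := by
  ext t
  constructor
  · rintro ⟨_, ⟨a, ha, rfl⟩, _, ⟨b, hb, rfl⟩, rfl⟩
    refine ⟨a⁻¹ * φ * b, ?_, ?_⟩
    · rw [DoubleCoset.mem_doubleCoset]
      exact ⟨a⁻¹, H.inv_mem ha, b, hb, rfl⟩
    · show dist (a • T.o) ((φ * b) • T.o) = dist T.o ((a⁻¹ * φ * b) • T.o)
      rw [← T.isom a T.o, ← mul_smul]
      congr 2
      group
  · rintro ⟨g, hg, rfl⟩
    rw [DoubleCoset.mem_doubleCoset] at hg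
    obtain ⟨a, ha, b, hb, rfl⟩ := hg
    refine ⟨a⁻¹ • T.o, ⟨a⁻¹, H.inv_mem ha, rfl⟩, (φ * b) • T.o, ⟨b, hb, rfl⟩, ?_⟩
    show dist T.o ((a * φ * b) • T.o) = _
    rw [← T.isom a (a⁻¹ • T.o), ← mul_smul, ← mul_smul, mul_inv_cancel, one_smul, mul_assoc]

/-- BLOCK SD. The distance of the orbits. -/
theorem SD_main (T : TD G X M) (H K : Subgroup G) (φ : G) (r : ℝ) :
    sdist {x : X | ∃ a ∈ H, x = a • T.o} {x : X | ∃ b ∈ K, x = (φ * b) • T.o} ≤ r ↔
      ∃ g ∈ DoubleCoset.doubleCoset φ (H : Set G) (K : Set G), T.len g ≤ r := by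
  unfold sdist
  rw [sd_set]
  have hbdd : BddBelow {t | ∃ g ∈ DoubleCoset.doubleCoset φ (H : Set G) (K : Set G), t = T.len g} := by
    refine ⟨0, ?_⟩
    rintro _ ⟨g, -, rfl⟩
    exact dist_nonneg
  have hne : {t | ∃ g ∈ DoubleCoset.doubleCoset φ (H : Set G) (K : Set G), t = T.len g}.Nonempty :=
    ⟨_, φ, DoubleCoset.mem_doubleCoset_self H K φ, rfl⟩
  constructor
  · intro h
    by_contra hcon
    push Not at hcon
    -- the elements of length at most r + 1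
    have hfin : {g | g ∈ DoubleCoset.doubleCoset φ (H : Set G) (K : Set G) ∧ T.len g ≤ r + 1}.Finite :=
      (T.fin (r + 1)).subset fun g hg => hg.2
    obtain ⟨_, ⟨g0, hg0, rfl⟩, hlt⟩ := exists_lt_of_csInf_lt hne (lt_of_le_of_lt h (lt_add_one r))
    obtain ⟨g1, hg1, hmin⟩ := Set.exists_min_image _ T.len hfin ⟨g0, hg0, hlt.le⟩
    have h1 := hcon g1 hg1.1
    have h2 : T.len g1 ≤ sInf {t | ∃ g ∈ DoubleCoset.doubleCoset φ (H : Set G) (K : Set G), t = T.len g} := by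
      apply le_csInf hne
      rintro _ ⟨g, hg, rfl⟩
      by_cases hgr : T.len g ≤ r + 1
      · exact hmin g ⟨hg, hgr⟩
      · push Not at hgr
        exact hg1.2.trans hgr.le
    linarith
  · rintro ⟨g, hg, h⟩
    exact (csInf_le hbdd ⟨g, hg, rfl⟩).trans h

end Pool.Agent.DC
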