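import Pool.Agent.Lib_helper35.DC.Defs

/-! # Double coset growth: block PS -/

set_option autoImplicit false

open MeasureTheory Filter Topology

namespace Pool.Agent.DC

private theorem ps_closest {X : Type} [MetricSpace X] {σ : Set X} (hσ : IsCompact σ) {a : X} (ha : a ∈ σ)
    (x : X) : ∃ p ∈ σ, ∀ s ∈ σ, dist x p ≤ dist x s := by
  obtain ⟨p, hp, h⟩ := hσ.exists_isMinOn ⟨a, ha⟩ (continuous_const.dist continuous_id : Continuous fun s => dist x s).continuousOn
  exact ⟨p, hp, fun s hs => h hs⟩

private theorem ps_swap {X : Type} [MetricSpace X] {D : ℝ} {σ : Set X} {a b : X} (h : Seg D σ a b) :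
    Seg D σ b a := by
  refine ⟨h.comp, h.right, h.left, fun p hp => ?_, h.contr⟩
  have := h.geod p hp
  rw [dist_comm b p, dist_comm p a, dist_comm b a]
  linarith

/-- The closest point of the end point. -/
private theorem ps_end {X : Type} [MetricSpace X] {D ε : ℝ} {σ : Set X} {a b : X} (h : Seg D σ a b)
    {z w : X} (hw : w ∈ σ) (hc : ∀ s ∈ σ, dist z w ≤ dist z s)
    (hz : dist a b + dist b z ≤ dist a z + ε) : dist w b ≤ |D| + |ε| := by
  have d1 := le_abs_self D
  have d2 := abs_nonneg ε
  have d3 := le_abs_self ε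
  have d4 := abs_nonneg D
  by_cases hD : D ≤ dist w b
  · have h1 := h.contr z b w hw b h.right hc (fun s _ => by rw [dist_self]; exact dist_nonneg) hD
    have h2 := dist_triangle a w z
    have h3 := h.geod w hw
    rw [dist_self] at h1
    rw [dist_comm z w, dist_comm z b] at h1
    linarith
  · push Not at hD
    linarith

/-- The closest point of a far point. -/
private theorem ps_far {X : Type} [MetricSpace X] {D ε R D0 : ℝ} {σ : Set X} {a b : X} (h : Seg D σ a b)
    {o z x p0 p : X} (hp0 : p0 ∈ σ) (hc0 : ∀ s ∈ σ, dist o p0 ≤ dist o s) (h0 : dist p0 a ≤ D0)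
    (hg : dist o a + dist a b + dist b z ≤ dist o z + ε) (hp : p ∈ σ)
    (hc : ∀ s ∈ σ, dist x p ≤ dist x s) (hx : dist x o + dist o z - R ≤ dist x z) :
    dist p a ≤ |D| + 2 * |D0| + |ε| + |R| := by
  have d1 := le_abs_self D
  have d2 := abs_nonneg ε
  have d3 := le_abs_self ε
  have d4 := abs_nonneg D
  have d5 := le_abs_self R
  have d6 := abs_nonneg R
  have d7 := le_abs_self D0
  have d8 := abs_nonneg D0
  by_cases hD : D ≤ dist p p0
  · have h1 := h.contr x o p hp p0 hp0 hc hc0 hD
    have h2 := dist_triangle x p z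
    have h3 := dist_triangle p b z
    have h4 := h.geod p hp
    have h5 := dist_triangle p p0 a
    have h6 := dist_triangle o p0 a
    rw [dist_comm p0 o] at h1
    rw [dist_comm a p] at h4
    have h7 : (0 : ℝ) ≤ dist o a := dist_nonneg
    linarith
  · push Not at hD
    have h5 := dist_triangle p p0 a
    linarith

/-- BLOCK PS. A long contracting segment makes distances additive. -/
theorem PS_main {X : Type} [MetricSpace X] (ε D R : ℝ) : ∃ L D' : ℝ, ∀ (σ : Set X) (a b o z : X),
    Seg D σ a b → L ≤ dist a b → dist o a + dist a b + dist b z ≤ dist o z + ε →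
    ∀ x y : X, dist x o + dist o z - R ≤ dist x z → dist y z + dist o z - R ≤ dist y o →
      dist x o + dist o z + dist z y - D' ≤ dist x y := by
  obtain ⟨R1, hR1⟩ : ∃ R1, R1 = |D| + 2 * |(|D| + |ε|)| + |ε| + |R| := ⟨_, rfl⟩
  refine ⟨|D| + 2 * R1, 4 * R1 + |D| + 2 * |ε| + 2 * |R|, ?_⟩
  intro σ a b o z h hL hg x y hx hy
  have d1 := le_abs_self D
  have d2 := abs_nonneg ε
  have d3 := le_abs_self ε
  have d4 := abs_nonneg D
  have d5 := le_abs_self R
  have d6 := abs_nonneg R
  obtain ⟨p0, hp0, c0⟩ := ps_closest h.comp h.left o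
  obtain ⟨w, hw, cw⟩ := ps_closest h.comp h.left z
  obtain ⟨p, hp, cp⟩ := ps_closest h.comp h.left x
  obtain ⟨q, hq, cq⟩ := ps_closest h.comp h.left y
  have hg' : dist z b + dist b a + dist a o ≤ dist z o + ε := by
    rw [dist_comm z b, dist_comm b a, dist_comm a o, dist_comm z o]
    linarith
  have e1 : dist w b ≤ |D| + |ε| := by
    apply ps_end h hw cw
    have := dist_triangle o a z
    linarith
  have e2 : dist p0 a ≤ |D| + |ε| := by
    apply ps_end (ps_swap h) hp0 c0
    have := dist_triangle z b o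
    linarith
  have e3 : dist p a ≤ R1 := by
    rw [hR1]
    exact ps_far h hp0 c0 e2 hg hp cp hx
  have e4 : dist q b ≤ R1 := by
    rw [hR1]
    refine ps_far (ps_swap h) hw cw e1 hg' hq cq ?_
    rw [dist_comm z o]
    exact hy
  have t1 := dist_triangle a p b
  have t2 := dist_triangle p q b
  rw [dist_comm a p] at t1
  have hpq : D ≤ dist p q := by linarith
  have h1 := h.contr x y p hp q hq cp cq hpq
  have t3 := dist_triangle x p a
  have t4 := dist_triangle y q b
  have t5 := dist_triangle x a z
  have t6 := dist_triangle a b z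
  have t7 := dist_triangle y b o
  have t8 := dist_triangle b a o
  rw [dist_comm y q] at t4
  rw [dist_comm b a, dist_comm a o] at t8
  rw [dist_comm z y]
  linarith

end Pool.Agent.DC
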